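import Mathlib
import Pool.Agent.Results.MP_71c16a_nt.AllCurvesProximity

/-!
# Vojta's inequality on curves from the truncated counting function on the line

A version of the last steps of `MP_71c16a_nt.AllCurvesProximity` (starting files) which is uniform in
the number field.
-/

set_option autoImplicit false

namespace Pool.Agent.Q103.SDV

open Polynomial IsDedekindDomain NumberField
open Pool.Agent.W223.VD (cnt)
open Pool.Agent.W223.AC (pt mob)
open Pool.Agent.W223.CV
open Pool.Agent.W337.AC.MOBC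
open Pool.Agent.Results.MP_71c16a_nt.AllCurvesProximity

/-- the two definitions of the height agree -/
lemma height_same {K : Type} [Field K] [NumberField K] (x : K) :
    Pool.Agent.Results.MP_f5a5f7_nt.FewExceptions.height x = height x := rfl

/-- the inequality for the points of a curve, in terms of the truncated counting function on the
line; the constants do not depend on the number fields -/
theorem cover (A : Type) [CommRing A] [IsDedekindDomain A] [Algebra ℚ A] [Algebra ℚ[X] A]
    [IsScalarTower ℚ ℚ[X] A] [Module.Finite ℚ[X] A] [FaithfulSMul ℚ[X] A]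
    (a : Fin 3 → ℚ) (u : Fin 3 → ℕ) (y : ∀ j, Fin (u j + 1) → A)
    (hy0 : ∀ j, y j 0 = coord A - algebraMap ℚ[X] A (C (a j)))
    (hyr : ∀ j i, y j i ∈ (Ideal.span {coord A - algebraMap ℚ[X] A (C (a j))}).radical)
    (ε : ℝ) (hε : 0 < ε) :
    ∃ (S₀ : Finset ℕ) (C₀ : ℝ) (G : ℚ[X]), (∀ p ∈ S₀, p.Prime) ∧ G ≠ 0 ∧
      ∀ (K : Type) [Field K] [NumberField K] (x : K), aeval x G ≠ 0 → (∀ j, x ≠ (a j : K)) →
      ∀ (L : Type) [Field L] [NumberField L] [Algebra K L] (φ : A →+* L) (S : Finset ℕ),
        φ (coord A) = algebraMap K L x → (∀ p ∈ S, p.Prime) →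
        cnt S₀ (fun j => pt (a j)) x / Module.finrank ℚ K + proximity S u y L φ +
          (degree u y - 3 - ε) * height x ≤ logDisc L + ∑ p ∈ S, Real.log p + C₀ := by
  classical
  obtain ⟨M, Ck, G, hM, hCk, hG, hkey⟩ := Pool.Agent.W223.AC.keyG
    (Pool.Agent.W223.AC.nbp (Pool.Agent.W976.AC.EX.t Pool.Agent.W398.AC.DIM.t
      Pool.Agent.W193.AC.FINQ.t Pool.Agent.W989.AC.MULT.t) Pool.Agent.W756.AC.t
      (Pool.Agent.W410.AC.t Pool.Agent.W131.AC.t) Pool.Agent.W223.AC.SUMP.t
      Pool.Agent.W460.AC.t)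
    Pool.Agent.W989.AC.MULT.t Pool.Agent.W597.AC.t A a (fun j : Fin 3 => j) u y hy0
    (by
      intro k
      have h1 : (Finset.univ.filter fun l : Fin 3 => l = k) = {k} := by
        ext l
        simp
      rw [h1, Finset.prod_singleton, Ideal.span_le]
      rintro _ ⟨i, rfl⟩
      exact hyr k i) (ε / 3) (by positivity)
  have hSp : ∀ p ∈ (∅ : Finset ℕ) ∪ M.primeFactors, p.Prime := by
    intro p hp
    rcases Finset.mem_union.mp hp with h | h
    · exact absurd h (Finset.notMem_empty p)
    · exact Nat.prime_of_mem_primeFactors h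
  refine ⟨∅ ∪ M.primeFactors, 3 * Ck, G, hSp, hG, ?_⟩
  intro K _ _ x hGx hxa L _ _ _ φ S hφ hS
  have hne : ∀ k, φ (coord A) ≠ (a k : L) := by
    intro k h
    rw [hφ] at h
    apply hxa k
    apply FaithfulSMul.algebraMap_injective K L
    rw [h, map_ratCast]
  have hGL : aeval (φ (coord A)) G ≠ 0 := by
    rw [hφ, aeval_algebraMap_apply]
    intro h
    rw [map_eq_zero] at h
    exact hGx h
  obtain ⟨hk1, hk2⟩ := hkey L φ hGL hne
  have hz0 : ∀ l, φ (y l 0) ≠ 0 := by
    intro l
    rw [hy0 l, map_sub]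
    have : φ (algebraMap ℚ[X] A (Polynomial.C (a l))) = (a l : L) :=
      eq_ratCast (φ.comp ((algebraMap ℚ[X] A).comp Polynomial.C)) (a l)
    rw [this]
    exact sub_ne_zero.mpr (hne l)
  have hnf : ∀ l, {v : HeightOneSpectrum (𝓞 L) | Pool.Agent.W223.AC.NearP (y l) φ v}.Finite :=
    fun l => Pool.Agent.W223.AC.near_finite (y l) φ (hz0 l)
  have hk1 := (hk1 ∅).trans ((Pool.Agent.W223.AC.cc_outside Pool.Agent.W803.AC.t S hS _ (by
      refine (Set.finite_iUnion fun l => hnf l).subset ?_
      rintro v ⟨l, -, hv⟩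
      exact Set.mem_iUnion.mpr ⟨l, hv⟩)).trans
    (add_le_add_left (Pool.Agent.W223.CV.cc_exists S Finset.univ
      (fun l (v : HeightOneSpectrum (𝓞 L)) => Pool.Agent.W223.AC.NearP (y l) φ v) hnf) _))
  have hLpos : (0 : ℝ) < Module.finrank ℚ L := by exact_mod_cast Module.finrank_pos
  -- the height over `L`
  have hht : Real.log (Height.mulHeight₁ (φ (coord A))) = Module.finrank ℚ L * height x := by
    have h3 : Real.log (Height.mulHeight₁ (algebraMap K L x)) =
        Module.finrank K L * Real.log (Height.mulHeight₁ x) :=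
      Pool.Agent.W223.AC.MK.log_height_ext L x
    have h4 : Real.log (Height.mulHeight₁ x) = Module.finrank ℚ K * height x :=
      Pool.Agent.W223.AC.MK.height_eq x
    rw [hφ, h3, h4, ← mul_assoc, mul_comm (Module.finrank K L : ℝ)]
    congr 1
    exact_mod_cast Module.finrank_mul_finrank ℚ K L
  rw [proximity_eq S u y L φ fun j => (hk2 j).1]
  -- the sum over the fibres
  have h5 : ∀ l, Pool.Agent.W223.CV.cc S (fun v : HeightOneSpectrum (𝓞 L) =>
        Pool.Agent.W223.AC.NearP (y l) φ v) +
      (∑ w : InfinitePlace L, (w.mult : ℝ) * Pool.Agent.W223.AC.lamI (y l) φ w +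
        Pool.Agent.W223.AC.mS S (y l) φ) ≤
      ((Module.finrank ℚ (A ⧸ Ideal.span (Set.range (y l))) : ℝ) /
          Module.finrank ℚ[X] A + ε / 3) * (Module.finrank ℚ L * height x) +
        Module.finrank ℚ L * Ck := by
    intro l
    obtain ⟨h6, h7⟩ := hk2 l
    have h8 := Pool.Agent.W223.AC.split_prox (y l) φ S (hz0 l) h6
    have h9 : Real.log (Height.mulHeight₁ (φ (Pool.Agent.W223.AC.tt A))) =
      Module.finrank ℚ L * height x := hht
    rw [h9] at h7
    linarith
  have h6 := Finset.sum_le_sum fun l (_ : l ∈ Finset.univ) => h5 l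
  rw [Finset.sum_add_distrib] at h6
  have h7 : ∑ l, (((Module.finrank ℚ (A ⧸ Ideal.span (Set.range (y l))) : ℝ) /
          Module.finrank ℚ[X] A + ε / 3) * (Module.finrank ℚ L * height x) +
        Module.finrank ℚ L * Ck) =
      (3 - degree u y + ε) * height x * Module.finrank ℚ L + 3 * Ck * Module.finrank ℚ L := by
    rw [Finset.sum_add_distrib, ← Finset.sum_mul, Finset.sum_add_distrib, ← Finset.sum_div,
      Finset.sum_const, Finset.sum_const, Finset.card_univ, Fintype.card_fin, nsmul_eq_mul,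
      nsmul_eq_mul]
    unfold Pool.Agent.Results.MP_71c16a_nt.AllCurvesProximity.degree
    push_cast
    ring
  rw [h7] at h6
  have h8 : cnt (∅ ∪ M.primeFactors)
      (fun k => Pool.Agent.W223.AC.pt (a k)) (φ (coord A)) / Module.finrank ℚ L +
      (∑ j, (∑ w : InfinitePlace L, (w.mult : ℝ) * Pool.Agent.W223.AC.lamI (y j) φ w +
        Pool.Agent.W223.AC.mS S (y j) φ)) / Module.finrank ℚ L ≤
      (3 - degree u y + ε) * height x + 3 * Ck + ∑ p ∈ S, Real.log p := by
    rw [← add_div, div_le_iff₀ hLpos, add_mul ((3 - degree u y + ε) * height x + 3 * Ck),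
      add_mul ((3 - degree u y + ε) * height x)]
    have h9 : cnt (∅ ∪ M.primeFactors)
      (fun k => Pool.Agent.W223.AC.pt (a k)) (φ (coord A)) ≤
        ∑ l, Pool.Agent.W223.CV.cc S (fun v : HeightOneSpectrum (𝓞 L) =>
        Pool.Agent.W223.AC.NearP (y l) φ v) +
          Module.finrank ℚ L * ∑ p ∈ S, Real.log p := hk1
    linarith
  rw [hφ] at h8
  -- base change
  have hd0 : (0 : ℝ) < Module.finrank ℚ K := by exact_mod_cast Module.finrank_pos
  have hlin : ∀ j, Pool.Agent.W223.CV.lin (pt (a j)) x ≠ 0 := by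
    intro j h
    unfold Pool.Agent.W223.CV.lin pt at h
    have h11 : ((a j : ℚ) : K) = (((a j).num : ℤ) : K) / (((a j).den : ℤ) : K) := by
      have := Rat.cast_def (K := K) (a j)
      push_cast
      exact this
    have h12 : (((a j).den : ℤ) : K) ≠ 0 := by exact_mod_cast (a j).den_nz
    apply hxa j
    rw [h11, eq_div_iff h12]
    exact (sub_eq_zero.mp h).symm
  have hrel := Pool.Agent.W469.CV.REL.t K L 3 (∅ ∪ M.primeFactors) (fun j => pt (a j)) x hlin
  have htow : (Module.finrank ℚ L : ℝ) = Module.finrank ℚ K * Module.finrank K L := by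
    exact_mod_cast (Module.finrank_mul_finrank ℚ K L).symm
  have h4 : (Real.log |(discr K : ℝ)| + cnt (∅ ∪ M.primeFactors) (fun j => pt (a j)) x) /
      Module.finrank ℚ K ≤
      cnt (∅ ∪ M.primeFactors) (fun j => pt (a j)) (algebraMap K L x) / Module.finrank ℚ L +
      Real.log |(discr L : ℝ)| / Module.finrank ℚ L := by
    rw [← add_div, div_le_div_iff₀ hd0 hLpos, htow]
    have h5 : (Real.log |(discr K : ℝ)| + cnt (∅ ∪ M.primeFactors) (fun j => pt (a j)) x) *
        (Module.finrank ℚ K * Module.finrank K L) =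
        (Module.finrank K L * (Real.log |(discr K : ℝ)| +
          cnt (∅ ∪ M.primeFactors) (fun j => pt (a j)) x)) * Module.finrank ℚ K := by ring
    rw [h5]
    refine mul_le_mul_of_nonneg_right ?_ hd0.le
    linarith
  have hdisc : 0 ≤ Real.log |(discr K : ℝ)| := by
    refine Real.log_nonneg ?_
    have := discr_ne_zero K
    exact_mod_cast Int.one_le_abs this
  have h9 : cnt (∅ ∪ M.primeFactors) (fun j => pt (a j)) x / Module.finrank ℚ K ≤
      (Real.log |(discr K : ℝ)| + cnt (∅ ∪ M.primeFactors) (fun j => pt (a j)) x) /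
        Module.finrank ℚ K :=
    div_le_div_of_nonneg_right (by linarith) hd0.le
  have e7 : logDisc L = Real.log |(discr L : ℝ)| / Module.finrank ℚ L := rfl
  rw [e7]
  linarith

end Pool.Agent.Q103.SDV
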