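import Mathlib
import Pool.Agent.Q103.SDV.Cover
import Pool.Agent.Y724.T4.RTH

/-!
# Heights and conductors under a linear fractional map, uniformly in the number field
-/

set_option autoImplicit false

namespace Pool.Agent.Q103.SDV

open Polynomial IsDedekindDomain NumberField Height
open Pool.Agent.W223.VD (cnt)
open Pool.Agent.W223.AC (pt mob not_mem_of_dvd val_finite)
open Pool.Agent.W223.CV
open Pool.Agent.W337.AC.MOBC
open Pool.Agent.Results.MP_71c16a_nt.AllCurvesProximity (height)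

variable {K : Type} [Field K] [NumberField K]

/-- the primes at which the valuations of the coordinates are not all equal -/
def Bad (P : Fin 3 → 𝓞 K) (v : HeightOneSpectrum (𝓞 K)) : Prop :=
  ∃ k k', v.valuation K (P k : K) ≠ v.valuation K (P k' : K)

lemma bad_finite (P : Fin 3 → 𝓞 K) (hP : ∀ k, P k ≠ 0) :
    {v : HeightOneSpectrum (𝓞 K) | Bad P v}.Finite := by
  have h0 : ((∏ k, P k : 𝓞 K) : K) ≠ 0 := by
    rw [Ne, RingOfIntegers.coe_eq_zero_iff]
    exact Finset.prod_ne_zero_iff.mpr fun k _ => hP k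
  refine (val_finite (L := K) _ h0).subset ?_
  rintro v ⟨k, k', hkk⟩
  by_contra h
  have h1 : ∀ k, v.valuation K (P k : K) = 1 := by
    intro k
    have h2 : v.valuation K (P k : K) ≤ 1 := v.valuation_le_one (K := K) (P k)
    rcases h2.lt_or_eq with h3 | h3
    · exfalso
      apply h
      show v.valuation K ((∏ k, P k : 𝓞 K) : K) < 1
      have h4 : P k ∈ v.asIdeal := (v.valuation_lt_one_iff_mem (K := K) _).1 h3
      refine (v.valuation_lt_one_iff_mem (K := K) _).2 ?_
      exact Ideal.mem_of_dvd _ (Finset.dvd_prod_of_mem P (Finset.mem_univ k)) h4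
    · exact h3
  exact hkk (by rw [h1, h1])

/-- one of the three numbers is small at a bad prime -/
lemma bad_mob (P : Fin 3 → 𝓞 K) (hP : ∀ k, P k ≠ 0) (hsum : P 0 + P 1 + P 2 = 0) (y : K)
    (hy : y * (P 2 : K) = -(P 0 : K)) (v : HeightOneSpectrum (𝓞 K)) (hv : Bad P v) :
    v.valuation K y < 1 ∨ v.valuation K y⁻¹ < 1 ∨ v.valuation K (y - 1) < 1 := by
  have hne : ∀ k, (P k : K) ≠ 0 := fun k => RingOfIntegers.coe_ne_zero_iff.mpr (hP k)
  have hpos : ∀ k, 0 < v.valuation K (P k : K) := fun k =>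
    zero_lt_iff.2 ((Valuation.ne_zero_iff _).2 (hne k))
  have hs : (P 0 : K) + P 1 + P 2 = 0 := by exact_mod_cast congrArg (algebraMap (𝓞 K) K) hsum
  have hy0 : y ≠ 0 := by
    intro h
    rw [h, zero_mul] at hy
    exact hne 0 (neg_eq_zero.mp hy.symm)
  have e0 : v.valuation K y * v.valuation K (P 2 : K) = v.valuation K (P 0 : K) := by
    rw [← map_mul, hy, Valuation.map_neg]
  have e1 : v.valuation K (y - 1) * v.valuation K (P 2 : K) = v.valuation K (P 1 : K) := by
    rw [← map_mul]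
    congr 1
    linear_combination hy - hs
  have e2 : v.valuation K y⁻¹ * v.valuation K (P 0 : K) = v.valuation K (P 2 : K) := by
    rw [← e0, ← mul_assoc, ← map_mul, inv_mul_cancel₀ hy0, map_one, one_mul]
  by_contra hcon
  push Not at hcon
  obtain ⟨c0, c2, c1⟩ := hcon
  have f0 : v.valuation K (P 2 : K) ≤ v.valuation K (P 0 : K) := by
    rw [← e0]
    exact le_mul_of_one_le_left' c0
  have f1 : v.valuation K (P 2 : K) ≤ v.valuation K (P 1 : K) := by
    rw [← e1]
    exact le_mul_of_one_le_left' c1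
  have f2 : v.valuation K (P 0 : K) ≤ v.valuation K (P 2 : K) := by
    rw [← e2]
    exact le_mul_of_one_le_left' c2
  have f02 : v.valuation K (P 0 : K) = v.valuation K (P 2 : K) := le_antisymm f2 f0
  have f3 : v.valuation K (P 1 : K) ≤ v.valuation K (P 2 : K) := by
    have h1 : (P 1 : K) = -(P 0 : K) - P 2 := by linear_combination hs
    have h2 := Valuation.map_sub (v.valuation K) (-(P 0 : K)) (P 2 : K)
    rw [← h1, Valuation.map_neg, f02, max_self] at h2
    exact h2
  have f12 : v.valuation K (P 1 : K) = v.valuation K (P 2 : K) := le_antisymm f3 f1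
  obtain ⟨k, k', hkk⟩ := hv
  apply hkk
  have : ∀ k, v.valuation K (P k : K) = v.valuation K (P 2 : K) := by
    intro k
    fin_cases k
    · exact f02
    · exact f12
    · rfl
  rw [this k, this k']

/-- the radical of `P` and the truncated counting function of `x` -/
theorem rad_le (a : Fin 3 → ℚ) (ha : Function.Injective a) (S₀ : Finset ℕ)
    (hS₀ : ∀ p ∈ S₀, p.Prime) (x : K) (hx : ∀ j, x ≠ (a j : K)) (P : Fin 3 → 𝓞 K)
    (hP : ∀ k, P k ≠ 0) (hsum : P 0 + P 1 + P 2 = 0) (hm : mob a x * (P 2 : K) = -(P 0 : K)) :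
    cc ∅ (Bad P) ≤ cnt S₀ (fun j => pt (a j)) x +
      Module.finrank ℚ K * ∑ p ∈ (MM a S₀).primeFactors, Real.log p := by
  have hM0 : MM a S₀ ≠ 0 := MM_ne a ha S₀ hS₀
  have h1 := Pool.Agent.W223.AC.cc_outside Pool.Agent.W803.AC.t (MM a S₀).primeFactors
    (fun p hp => Nat.prime_of_mem_primeFactors hp) (Bad P) (bad_finite P hP)
  refine h1.trans (add_le_add_left ?_ _)
  rw [cnt_eq]
  have hN : {v : HeightOneSpectrum (𝓞 K) | ∃ j ∈ Finset.univ, Near (pt (a j)) x v}.Finite := by
    have h1 : {v : HeightOneSpectrum (𝓞 K) | ∃ j ∈ Finset.univ, Near (pt (a j)) x v} =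
        ⋃ j, {v | Near (pt (a j)) x v} := by
      ext v; simp
    rw [h1]
    refine Set.finite_iUnion fun j => near_finite _ _ ?_
    intro h2
    apply hx j
    have hd0 : ((a j).den : K) ≠ 0 := by exact_mod_cast (a j).den_nz
    have h3 : (a j : K) = ((a j).num : K) / ((a j).den : K) := by
      exact_mod_cast Rat.cast_def (K := K) (a j)
    unfold lin pt at h2
    rw [h3, eq_div_iff hd0]
    have h4 := (sub_eq_zero.1 h2).symm
    simpa using h4
  refine cc_mono (fun p hp => ?_) hN ?_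
  · exact Nat.mem_primeFactors.mpr ⟨hS₀ p hp, MM_p a S₀ hp, hM0⟩
  · intro v hv hQ
    have hMv : ((MM a S₀ : ℕ) : 𝓞 K) ∉ v.asIdeal := by
      intro h
      have h2 : ((MM a S₀).primeFactorsList.map (fun n : ℕ => (n : 𝓞 K))).prod ∈ v.asIdeal := by
        have h3 := Nat.prod_primeFactorsList hM0
        rw [← Nat.cast_list_prod, h3]
        exact h
      have h4 : ∃ b ∈ (MM a S₀).primeFactorsList.map (fun n : ℕ => (n : 𝓞 K)), b ∈ v.asIdeal := by
        by_contra hno
        push Not at hno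
        have h5 : ∀ l : List (𝓞 K), (∀ b ∈ l, b ∉ v.asIdeal) → l.prod ∉ v.asIdeal := by
          intro l
          induction l with
          | nil =>
            intro _ h6
            rw [List.prod_nil] at h6
            exact v.isPrime.ne_top ((Ideal.eq_top_iff_one _).mpr h6)
          | cons b l ih =>
            intro h6 h7
            rw [List.prod_cons] at h7
            rcases v.isPrime.mem_or_mem h7 with h8 | h8
            · exact h6 b (by simp) h8
            · exact ih (fun c hc => h6 c (by simp [hc])) h8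
        exact h5 _ hno h2
      obtain ⟨b, hb, hbv⟩ := h4
      rw [List.mem_map] at hb
      obtain ⟨p, hp, rfl⟩ := hb
      exact hv p (Nat.mem_primeFactors_iff_mem_primeFactorsList.mpr hp) hbv
    by_contra hcon
    have h2 := pointwise a ha S₀ x hx v hMv
    rw [ct_neg (A := fun v : HeightOneSpectrum (𝓞 K) => ∃ j ∈ Finset.univ, Near (pt (a j)) x v)
      (fun h => hcon h.2)] at h2
    have c0 := ct_nonneg ∅ (fun v : HeightOneSpectrum (𝓞 K) => v.valuation K (mob a x) < 1) v
    have c2 := ct_nonneg ∅ (fun v : HeightOneSpectrum (𝓞 K) => v.valuation K (mob a x)⁻¹ < 1) v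
    have c1 := ct_nonneg ∅ (fun v : HeightOneSpectrum (𝓞 K) => v.valuation K (mob a x - 1) < 1) v
    have hN1 : (0 : ℝ) < Real.log (Ideal.absNorm v.asIdeal) :=
      Real.log_pos (by exact_mod_cast HeightOneSpectrum.one_lt_absNorm v)
    rcases bad_mob P hP hsum _ hm v hQ with h | h | h
    · rw [ct_pos (A := fun v : HeightOneSpectrum (𝓞 K) => v.valuation K (mob a x) < 1)
        ⟨by simp, h⟩] at h2
      linarith
    · rw [ct_pos (A := fun v : HeightOneSpectrum (𝓞 K) => v.valuation K (mob a x)⁻¹ < 1)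
        ⟨by simp, h⟩] at h2
      linarith
    · rw [ct_pos (A := fun v : HeightOneSpectrum (𝓞 K) => v.valuation K (mob a x - 1) < 1)
        ⟨by simp, h⟩] at h2
      linarith

/-- the height of a rational number -/
lemma log_rat (q : ℚ) : logHeight₁ (q : K) = Module.finrank ℚ K * logHeight₁ q := by
  have h := Pool.Agent.W223.AC.MK.log_height_ext (K := ℚ) K q
  have h1 : algebraMap ℚ K q = (q : K) := eq_ratCast _ q
  rw [h1] at h
  exact h

/-- heights under the inverse of the linear fractional map -/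
theorem height_mob (a : Fin 3 → ℚ) (ha : Function.Injective a) :
    ∃ C : ℝ, 0 ≤ C ∧ ∀ (K : Type) [Field K] [NumberField K] (x : K), (∀ j, x ≠ (a j : K)) →
      logHeight₁ x ≤ logHeight₁ (mob a x) + Module.finrank ℚ K * C ∧
      logHeight₁ (mob a x) ≤ logHeight₁ x + Module.finrank ℚ K * C := by
  refine ⟨2 * Real.log 2 + logHeight₁ ((a 1 - a 2) / (a 1 - a 0)) + logHeight₁ (a 2 - a 0) +
    logHeight₁ (a 2), ?_, ?_⟩
  · have := zero_le_logHeight₁ ((a 1 - a 2) / (a 1 - a 0))
    have := zero_le_logHeight₁ (a 2 - a 0)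
    have := zero_le_logHeight₁ (a 2)
    have := Real.log_nonneg (show (1 : ℝ) ≤ 2 by norm_num)
    linarith
  intro K _ _ x hx
  set c : K := ((a 1 : K) - a 2) / ((a 1 : K) - a 0) with hc
  set d : K := (a 2 : K) - a 0 with hd
  have hcr : logHeight₁ c = Module.finrank ℚ K * logHeight₁ ((a 1 - a 2) / (a 1 - a 0)) := by
    rw [← log_rat]
    congr 1
    push_cast
    rfl
  have hdr : logHeight₁ d = Module.finrank ℚ K * logHeight₁ (a 2 - a 0) := by
    rw [← log_rat]
    congr 1
    push_cast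
    rfl
  have h2r : logHeight₁ (a 2 : K) = Module.finrank ℚ K * logHeight₁ (a 2) := log_rat _
  have htw : (totalWeight K : ℝ) = Module.finrank ℚ K := by
    exact_mod_cast NumberField.totalWeight_eq_finrank K
  have inj : ∀ i j, i ≠ j → (a i : K) - a j ≠ 0 := by
    intro i j hij h
    have h1 : (a i : K) = a j := sub_eq_zero.1 h
    exact hij (ha (by exact_mod_cast h1))
  have h12 := inj 1 2 (by decide)
  have h10 := inj 1 0 (by decide)
  have h20 := inj 2 0 (by decide)
  have hc0 : c ≠ 0 := div_ne_zero h12 h10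
  have hd0 : d ≠ 0 := h20
  have hx2 : x - a 2 ≠ 0 := sub_ne_zero.2 (hx 2)
  set y : K := Pool.Agent.W223.AC.mob a x with hy
  have e1 : y = c * (1 + d * (x - a 2)⁻¹) := by
    rw [hy, hc, hd]
    unfold Pool.Agent.W223.AC.mob
    field_simp
    ring
  have e2 : x = a 2 + d * (y * c⁻¹ - 1)⁻¹ := by
    have : y * c⁻¹ - 1 = d * (x - a 2)⁻¹ := by
      rw [e1]; field_simp; ring
    rw [this, mul_inv, inv_inv, ← mul_assoc, mul_inv_cancel₀ hd0]; ring
  have hexp : Module.finrank ℚ K * (2 * Real.log 2 + logHeight₁ ((a 1 - a 2) / (a 1 - a 0)) +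
      logHeight₁ (a 2 - a 0) + logHeight₁ (a 2)) =
      2 * (totalWeight K * Real.log 2) + logHeight₁ c + logHeight₁ d + logHeight₁ (a 2 : K) := by
    rw [hcr, hdr, h2r, htw]
    ring
  rw [hexp]
  constructor
  · have k1 := logHeight₁_add_le (a 2 : K) (d * (y * c⁻¹ - 1)⁻¹)
    have k2 := logHeight₁_mul_le d (y * c⁻¹ - 1)⁻¹
    rw [logHeight₁_inv] at k2
    have k3 := logHeight₁_sub_le (y * c⁻¹) 1
    rw [logHeight₁_one] at k3
    have k4 := logHeight₁_mul_le y c⁻¹
    rw [logHeight₁_inv] at k4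
    rw [← e2] at k1
    linarith
  · have k1 := logHeight₁_mul_le c (1 + d * (x - a 2)⁻¹)
    have k2 := logHeight₁_add_le 1 (d * (x - a 2)⁻¹)
    rw [logHeight₁_one] at k2
    have k3 := logHeight₁_mul_le d (x - a 2)⁻¹
    rw [logHeight₁_inv] at k3
    have k4 := logHeight₁_sub_le x (a 2 : K)
    rw [← e1] at k1
    linarith

/-- the heights of `x` and `P` -/
lemma log_mob_le (P : Fin 3 → 𝓞 K) (hP : ∀ k, P k ≠ 0) (y : K)
    (hy : y * (P 2 : K) = -(P 0 : K)) : logHeight₁ y ≤ logHeight (fun k => (P k : K)) := by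
  have h2 : (P 2 : K) ≠ 0 := RingOfIntegers.coe_ne_zero_iff.mpr (hP 2)
  have h1 : y = -((P 0 : K) / (P 2 : K)) := by
    rw [← neg_div, eq_div_iff h2, hy]
  rw [h1, logHeight₁_neg, logHeight₁_div_eq_logHeight]
  have h3 : ![(P 0 : K), (P 2 : K)] = (fun k => (P k : K)) ∘ ![0, 2] := by
    funext i
    fin_cases i <;> rfl
  rw [h3]
  exact logHeight_comp_le _ _

/-- the radical is at most three times the height -/
lemma rad_le_height (P : Fin 3 → 𝓞 K) (hP : ∀ k, P k ≠ 0) (hsum : P 0 + P 1 + P 2 = 0) (y : K)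
    (hy2 : y * (P 2 : K) = -(P 0 : K)) :
    cc ∅ (Bad P) ≤ 3 * logHeight₁ y + Module.finrank ℚ K * Real.log 2 := by
  have hne : ∀ k, (P k : K) ≠ 0 := fun k => RingOfIntegers.coe_ne_zero_iff.mpr (hP k)
  have hs : (P 0 : K) + P 1 + P 2 = 0 := by exact_mod_cast congrArg (algebraMap (𝓞 K) K) hsum
  have hy0 : y ≠ 0 := by
    rintro rfl
    rw [zero_mul] at hy2
    exact hne 0 (neg_eq_zero.mp hy2.symm)
  have hy1 : y - 1 ≠ 0 := by
    intro h
    have h1 : (y - 1) * (P 2 : K) = P 1 := by linear_combination hy2 - hs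
    rw [h, zero_mul] at h1
    exact hne 1 h1.symm
  have hfin : ∀ z : K, z ≠ 0 → {v : HeightOneSpectrum (𝓞 K) | v.valuation K z < 1}.Finite :=
    fun z hz => val_finite (L := K) z hz
  have hone : ∀ z : K, z ≠ 0 → cc ∅ (fun v : HeightOneSpectrum (𝓞 K) => v.valuation K z < 1) ≤
      logHeight₁ z := by
    intro z hz
    have h1 := Pool.Agent.W803.AC.t K ∅ (fun v => v.valuation K z < 1) z 1 hz le_rfl
      (fun v _ hv => Pool.Agent.W223.AC.val_lt_one_iff v z hv)
    rw [Nat.cast_one, one_mul] at h1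
    exact h1
  have h1 : cc ∅ (Bad P) ≤ cc ∅ (fun v : HeightOneSpectrum (𝓞 K) => v.valuation K y < 1 ∨
      (v.valuation K y⁻¹ < 1 ∨ v.valuation K (y - 1) < 1)) := by
    refine cc_mono (le_refl _) ((hfin y hy0).union ((hfin _ (inv_ne_zero hy0)).union
      (hfin _ hy1))) ?_
    intro v _ hv
    exact bad_mob P hP hsum y hy2 v hv
  have h2 := cc_or ∅ (A' := fun v : HeightOneSpectrum (𝓞 K) => v.valuation K y⁻¹ < 1 ∨
    v.valuation K (y - 1) < 1) (hfin y hy0) ((hfin _ (inv_ne_zero hy0)).union (hfin _ hy1))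
  have h3 := cc_or ∅ (hfin _ (inv_ne_zero hy0)) (hfin _ hy1)
  have h4 := hone y hy0
  have h5 := hone y⁻¹ (inv_ne_zero hy0)
  have h6 := hone (y - 1) hy1
  rw [logHeight₁_inv] at h5
  have h7 := logHeight₁_sub_le y 1
  rw [logHeight₁_one] at h7
  have htw : (totalWeight K : ℝ) = Module.finrank ℚ K := by
    exact_mod_cast NumberField.totalWeight_eq_finrank K
  rw [htw] at h7
  linarith

/-- the roots of a polynomial have bounded height -/
theorem root_height (G : ℚ[X]) (hG : G ≠ 0) : ∃ C : ℝ, 0 ≤ C ∧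
    ∀ (K : Type) [Field K] [NumberField K] (t : K), aeval t G = 0 →
      logHeight₁ t ≤ C * Module.finrank ℚ K := by
  obtain ⟨Q, hQ0, hQ⟩ := Pool.Agent.Y724.T4.RTHaux.int_of_rat G hG
  obtain ⟨C, hC0, hC⟩ := Pool.Agent.Y724.T4.root_height1 Q hQ0
  exact ⟨C, hC0, fun K _ _ t ht => hC K t (hQ K t ht)⟩

end Pool.Agent.Q103.SDV
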