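import Mathlib
import Pool.Agent.Q103.SDV.Uniform

/-!
# The primes of bad reduction of the elliptic curves of a given invariant and the radical of
`(j : 1728 - j : -1728)`
-/

set_option autoImplicit false

namespace Pool.Agent.Q103.SDV

open Polynomial IsDedekindDomain NumberField Height
open Pool.Agent.W223.AC (pt mob not_mem_of_dvd val_finite)
open Pool.Agent.W223.CV
open Pool.Agent.W337.AC.MOBC

variable {K : Type} [Field K] [NumberField K]

lemma mk_le (v : HeightOneSpectrum (𝓞 K)) (x y : K) :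
    FinitePlace.mk v x ≤ FinitePlace.mk v y ↔ v.valuation K x ≤ v.valuation K y := by
  rw [← Pool.Agent.W125.CV.fv_apply, ← Pool.Agent.W125.CV.fv_apply, Pool.Agent.W125.CV.fv_eq,
    Pool.Agent.W125.CV.fv_eq]
  have hm : StrictMono (WithZeroMulInt.toNNReal (HeightOneSpectrum.absNorm_ne_zero v)) :=
    WithZeroMulInt.toNNReal_strictMono (HeightOneSpectrum.one_lt_absNorm_nnreal v)
  have h1 := hm.le_iff_le (a := v.valuation K x) (b := v.valuation K y)
  rw [← h1]
  exact_mod_cast Iff.rfl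

lemma mk_eq_one (v : HeightOneSpectrum (𝓞 K)) (x : K) :
    FinitePlace.mk v x = 1 ↔ v.valuation K x = 1 := by
  have h1 := mk_le v x 1
  have h2 := mk_le v 1 x
  rw [map_one, map_one] at h1 h2
  constructor
  · intro h
    exact le_antisymm (h1.1 h.le) (h2.1 h.ge)
  · intro h
    exact le_antisymm (h1.2 h.le) (h2.2 h.ge)

lemma mk_le_one (v : HeightOneSpectrum (𝓞 K)) (x : K) :
    FinitePlace.mk v x ≤ 1 ↔ v.valuation K x ≤ 1 := by
  have h1 := mk_le v x 1
  rwa [map_one, map_one] at h1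

lemma val_of_mk (v : HeightOneSpectrum (𝓞 K)) (x : K) (k : ℤ)
    (h : FinitePlace.mk v x = (Ideal.absNorm v.asIdeal : ℝ) ^ k) :
    v.valuation K x = WithZero.exp k := by
  have hm : StrictMono (WithZeroMulInt.toNNReal (HeightOneSpectrum.absNorm_ne_zero v)) :=
    WithZeroMulInt.toNNReal_strictMono (HeightOneSpectrum.one_lt_absNorm_nnreal v)
  apply hm.injective
  have h6 : WithZeroMulInt.toNNReal (HeightOneSpectrum.absNorm_ne_zero v) (WithZero.exp k) =
      (Ideal.absNorm v.asIdeal : NNReal) ^ k := by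
    rw [WithZeroMulInt.toNNReal_neg_apply _ WithZero.exp_ne_zero]
    rfl
  rw [h6]
  apply NNReal.coe_injective
  rw [← Pool.Agent.W125.CV.fv_apply, Pool.Agent.W125.CV.fv_eq] at h
  push_cast
  exact h

/-- the conditions for a place to be additive -/
def AddP (j : K) (v : HeightOneSpectrum (𝓞 K)) : Prop :=
  FinitePlace.mk v (2 : K) = 1 ∧ FinitePlace.mk v (3 : K) = 1 ∧ FinitePlace.mk v j ≤ 1 ∧
    ((∀ m : ℤ, FinitePlace.mk v j ≠ (Ideal.absNorm v.asIdeal : ℝ) ^ (3 * m)) ∨
      (∀ m : ℤ, FinitePlace.mk v (j - 1728) ≠ (Ideal.absNorm v.asIdeal : ℝ) ^ (2 * m)))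

/-- the point `(j : 1728 - j : -1728)` -/
def IsJ (P : Fin 3 → 𝓞 K) (j : K) : Prop :=
  ∃ s : K, s ≠ 0 ∧ (P 0 : K) = s * j ∧ (P 1 : K) = s * (1728 - j) ∧ (P 2 : K) = -(s * 1728)

lemma not_dvd_one (v : HeightOneSpectrum (𝓞 K)) (hv : ∀ p ∈ ({2, 3} : Finset ℕ),
    (p : 𝓞 K) ∉ v.asIdeal) : v.valuation K (2 : K) = 1 ∧ v.valuation K (3 : K) = 1 := by
  have h2 := Pool.Agent.W223.AC.val_nat_eq_one v 2 (hv 2 (by simp))
  have h3 := Pool.Agent.W223.AC.val_nat_eq_one v 3 (hv 3 (by simp))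
  exact ⟨by exact_mod_cast h2, by exact_mod_cast h3⟩

lemma bad_cases (P : Fin 3 → 𝓞 K) (j : K) (hj : IsJ P j) (v : HeightOneSpectrum (𝓞 K))
    (hv : ∀ p ∈ ({2, 3} : Finset ℕ), (p : 𝓞 K) ∉ v.asIdeal) (hb : Bad P v) :
    (1 < FinitePlace.mk v j ∨ AddP j v) ∨
      (v.valuation K j ≤ WithZero.exp (-((3 : ℕ) : ℤ)) ∨
        v.valuation K (j - 1728) ≤ WithZero.exp (-((2 : ℕ) : ℤ))) := by
  obtain ⟨v2, v3⟩ := not_dvd_one v hv
  have v1728 : v.valuation K (1728 : K) = 1 := by
    have h : (1728 : K) = 2 ^ 6 * 3 ^ 3 := by norm_num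
    rw [h, map_mul, map_pow, map_pow, v2, v3, one_pow, one_pow, one_mul]
  by_cases hpole : 1 < FinitePlace.mk v j
  · exact Or.inl (Or.inl hpole)
  by_cases hadd : AddP j v
  · exact Or.inl (Or.inr hadd)
  right
  have hle : FinitePlace.mk v j ≤ 1 := not_lt.mp hpole
  have hle' : v.valuation K j ≤ 1 := (mk_le_one v j).1 hle
  have h1 : ¬ ((∀ m : ℤ, FinitePlace.mk v j ≠ (Ideal.absNorm v.asIdeal : ℝ) ^ (3 * m)) ∨
      (∀ m : ℤ, FinitePlace.mk v (j - 1728) ≠ (Ideal.absNorm v.asIdeal : ℝ) ^ (2 * m))) :=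
    fun h => hadd ⟨(mk_eq_one v 2).2 v2, (mk_eq_one v 3).2 v3, hle, h⟩
  push Not at h1
  obtain ⟨⟨m, hm⟩, ⟨m', hm'⟩⟩ := h1
  have g1 := val_of_mk v j _ hm
  have g2 := val_of_mk v (j - 1728) _ hm'
  rcases hle'.lt_or_eq with h2 | h2
  · left
    rw [g1] at h2 ⊢
    rw [← WithZero.exp_zero, WithZero.exp_lt_exp] at h2
    rw [WithZero.exp_le_exp]
    push_cast
    omega
  · have h3 : v.valuation K (j - 1728) ≤ 1 := by
      have := Valuation.map_sub (v.valuation K) j 1728
      rw [h2, v1728, max_self] at this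
      exact this
    rcases h3.lt_or_eq with h4 | h4
    · right
      rw [g2] at h4 ⊢
      rw [← WithZero.exp_zero, WithZero.exp_lt_exp] at h4
      rw [WithZero.exp_le_exp]
      push_cast
      omega
    · exfalso
      obtain ⟨s, hs, e0, e1, e2⟩ := hj
      have k0 : v.valuation K (P 0 : K) = v.valuation K s := by rw [e0, map_mul, h2, mul_one]
      have k1 : v.valuation K (P 1 : K) = v.valuation K s := by
        rw [e1, map_mul, Valuation.map_sub_swap, h4, mul_one]
      have k2 : v.valuation K (P 2 : K) = v.valuation K s := by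
        rw [e2, Valuation.map_neg, map_mul, v1728, mul_one]
      obtain ⟨k, k', hkk⟩ := hb
      apply hkk
      have : ∀ k, v.valuation K (P k : K) = v.valuation K s := by
        intro k
        fin_cases k
        · exact k0
        · exact k1
        · exact k2
      rw [this k, this k']

open Classical in
/-- the sum over the places with a property -/
noncomputable def scount (Q : HeightOneSpectrum (𝓞 K) → Prop) : ℝ :=
  ∑ᶠ v : HeightOneSpectrum (𝓞 K), if Q v then Real.log (Ideal.absNorm v.asIdeal) else 0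

lemma scount_eq (Q : HeightOneSpectrum (𝓞 K) → Prop) : scount Q = cc ∅ Q := by
  classical
  unfold scount cc
  refine finsum_congr fun v => ?_
  unfold ct
  by_cases h : Q v
  · rw [if_pos h, if_pos ⟨by simp, h⟩]
  · rw [if_neg h, if_neg (fun h' => h h'.2)]

lemma pole_finite (j : K) : {v : HeightOneSpectrum (𝓞 K) | 1 < FinitePlace.mk v j}.Finite := by
  refine (HeightOneSpectrum.Support.finite (𝓞 K) j).subset ?_
  intro v hv
  show 1 < v.valuation K j
  rw [← not_le, ← mk_le_one, not_le]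
  exact hv

lemma add_finite {j : K} (h0 : j ≠ 0) (h1 : j ≠ 1728) :
    {v : HeightOneSpectrum (𝓞 K) | AddP j v}.Finite := by
  have h2 : j - 1728 ≠ 0 := sub_ne_zero.2 h1
  refine ((val_finite (L := K) j h0).union ((val_finite (L := K) _ h2).union
    ((val_finite (L := K) 2 two_ne_zero).union (val_finite (L := K) 3 three_ne_zero)))).subset ?_
  rintro v ⟨q1, q2, q3, h⟩
  rcases h with h | h
  · left
    have h3 := h 0
    rw [mul_zero, zpow_zero] at h3
    have h4 := lt_of_le_of_ne q3 h3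
    exact (mk_lt v j).1 h4
  · right; left
    have h3 := h 0
    rw [mul_zero, zpow_zero] at h3
    have v2 := (mk_eq_one v 2).1 q1
    have v3 := (mk_eq_one v 3).1 q2
    have v1728 : v.valuation K (1728 : K) = 1 := by
      have h : (1728 : K) = 2 ^ 6 * 3 ^ 3 := by norm_num
      rw [h, map_mul, map_pow, map_pow, v2, v3, one_pow, one_pow, one_mul]
    have h5 : v.valuation K (j - 1728) ≤ 1 := by
      have := Valuation.map_sub (v.valuation K) j 1728
      rw [v1728, max_eq_right ((mk_le_one v j).1 q3)] at this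
      exact this
    have h4 := lt_of_le_of_ne ((mk_le_one v _).2 h5) h3
    exact (mk_lt v _).1 h4

/-- **The radical and the primes of bad reduction.** -/
theorem rad_le_J (P : Fin 3 → 𝓞 K) (hP : ∀ k, P k ≠ 0) {j : K} (h0 : j ≠ 0) (h1 : j ≠ 1728)
    (hj : IsJ P j) :
    cc ∅ (Bad P) ≤ scount (fun v => 1 < FinitePlace.mk v j) + scount (AddP j) +
      5 / 6 * logHeight₁ j + Module.finrank ℚ K * (Real.log 1728 + 2 * Real.log 2 + Real.log 3) := by
  have h2 : j - 1728 ≠ 0 := sub_ne_zero.2 h1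
  have hpr : ∀ p ∈ ({2, 3} : Finset ℕ), p.Prime := by
    intro p hp
    simp only [Finset.mem_insert, Finset.mem_singleton] at hp
    rcases hp with rfl | rfl <;> norm_num
  have k1 := Pool.Agent.W223.AC.cc_outside Pool.Agent.W803.AC.t ({2, 3} : Finset ℕ) hpr (Bad P)
    (bad_finite P hP)
  have e1 : ∑ p ∈ ({2, 3} : Finset ℕ), Real.log p = Real.log 2 + Real.log 3 := by
    rw [Finset.sum_pair (by norm_num)]
    norm_num
  rw [e1] at k1
  have f1 := pole_finite j
  have f2 := add_finite h0 h1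
  have f3 : {v : HeightOneSpectrum (𝓞 K) |
      v.valuation K j ≤ WithZero.exp (-((3 : ℕ) : ℤ))}.Finite := by
    refine (val_finite (L := K) j h0).subset fun v hv => ?_
    have h : v.valuation K j ≤ WithZero.exp (-((3 : ℕ) : ℤ)) := hv
    show v.valuation K j < 1
    refine lt_of_le_of_lt h ?_
    rw [← WithZero.exp_zero, WithZero.exp_lt_exp]
    norm_num
  have f4 : {v : HeightOneSpectrum (𝓞 K) |
      v.valuation K (j - 1728) ≤ WithZero.exp (-((2 : ℕ) : ℤ))}.Finite := by
    refine (val_finite (L := K) _ h2).subset fun v hv => ?_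
    have h : v.valuation K (j - 1728) ≤ WithZero.exp (-((2 : ℕ) : ℤ)) := hv
    show v.valuation K (j - 1728) < 1
    refine lt_of_le_of_lt h ?_
    rw [← WithZero.exp_zero, WithZero.exp_lt_exp]
    norm_num
  have k2 : cc ({2, 3} : Finset ℕ) (Bad P) ≤ cc ∅ (fun v : HeightOneSpectrum (𝓞 K) =>
      (1 < FinitePlace.mk v j ∨ AddP j v) ∨ (v.valuation K j ≤ WithZero.exp (-((3 : ℕ) : ℤ)) ∨
        v.valuation K (j - 1728) ≤ WithZero.exp (-((2 : ℕ) : ℤ)))) := by
    refine cc_mono (by simp) ((f1.union f2).union (f3.union f4)) ?_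
    intro v hv hb
    exact bad_cases P j hj v hv hb
  have k3 := cc_or ∅ (A := fun v : HeightOneSpectrum (𝓞 K) => 1 < FinitePlace.mk v j ∨ AddP j v)
    (A' := fun v : HeightOneSpectrum (𝓞 K) => v.valuation K j ≤ WithZero.exp (-((3 : ℕ) : ℤ)) ∨
        v.valuation K (j - 1728) ≤ WithZero.exp (-((2 : ℕ) : ℤ))) (f1.union f2) (f3.union f4)
  have k4 := cc_or ∅ (A := fun v : HeightOneSpectrum (𝓞 K) => 1 < FinitePlace.mk v j)
    (A' := AddP j) f1 f2
  have k5 := cc_or ∅ (A := fun v : HeightOneSpectrum (𝓞 K) =>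
      v.valuation K j ≤ WithZero.exp (-((3 : ℕ) : ℤ)))
    (A' := fun v : HeightOneSpectrum (𝓞 K) =>
      v.valuation K (j - 1728) ≤ WithZero.exp (-((2 : ℕ) : ℤ))) f3 f4
  have k6 := Pool.Agent.W803.AC.t K ∅ (fun v => v.valuation K j ≤ WithZero.exp (-((3 : ℕ) : ℤ)))
    j 3 h0 (by norm_num) (fun v _ hv => hv)
  have k7 := Pool.Agent.W803.AC.t K ∅
    (fun v => v.valuation K (j - 1728) ≤ WithZero.exp (-((2 : ℕ) : ℤ)))
    (j - 1728) 2 h2 (by norm_num) (fun v _ hv => hv)
  have k8 := logHeight₁_sub_le j 1728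
  have htw : (totalWeight K : ℝ) = Module.finrank ℚ K := by
    exact_mod_cast NumberField.totalWeight_eq_finrank K
  rw [htw] at k8
  have k9 : logHeight₁ (1728 : K) = Module.finrank ℚ K * Real.log 1728 := by
    have h := log_rat (K := K) 1728
    push_cast at h
    rw [h]
    congr 1
    have h3 : mulHeight₁ (1728 : ℚ) = 1728 := by
      have := Rat.mulHeight₁_eq_max (1728 : ℚ)
      rw [this]
      norm_num
    show Real.log (mulHeight₁ (1728 : ℚ)) = _
    rw [h3]
  rw [k9] at k8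
  have c6 : 3 * cc ∅ (fun v : HeightOneSpectrum (𝓞 K) =>
      v.valuation K j ≤ WithZero.exp (-((3 : ℕ) : ℤ))) ≤ logHeight₁ j := by
    exact_mod_cast k6
  have c7 : 2 * cc ∅ (fun v : HeightOneSpectrum (𝓞 K) =>
      v.valuation K (j - 1728) ≤ WithZero.exp (-((2 : ℕ) : ℤ))) ≤ logHeight₁ (j - 1728) := by
    exact_mod_cast k7
  rw [scount_eq, scount_eq]
  have hd : (0 : ℝ) < Module.finrank ℚ K := by exact_mod_cast Module.finrank_pos
  have l1 : 0 ≤ Real.log 1728 := Real.log_nonneg (by norm_num)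
  have l2 : 0 ≤ Real.log 2 := Real.log_nonneg (by norm_num)
  have l3 := mul_nonneg hd.le l1
  have l4 := mul_nonneg hd.le l2
  linarith

end Pool.Agent.Q103.SDV
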